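import Pool.Agent.H44.SO.Basic
import Pool.Agent.H44.EQD.All

/-!
# Row JEX: existence of the set of the determining positions on the elements of one type
-/

set_option autoImplicit false

namespace Pool.Agent.H48.SO.JEX

open Pool.Agent.H44.SO Pool.Agent.H57.SO Pool.Agent.H68.BP Pool.Agent.H58.SF Pool.Agent.H53.GC
open Pool.Agent.H53.NR Function
open Pool.Agent.H57.EQ (Cx Tour)
open Pool.Agent.H44.EQ (PolMap TInv BinPol ZA JSet sel kap)

theorem pf_JEX (hV : T_VIE) : T_JEX := by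
  classical
  intro σ V S X _ P 𝔸 M c hs h hh s κ
  have hc := hs.col
  obtain ⟨h1, h2, h3⟩ := hV σ V S X P 𝔸 M c hs h hh s
  obtain ⟨J, hJ1, hJ2⟩ := Pool.Agent.H44.EQD.all_JEX sig0 (Vs c s) X (str0 (Vs c s)) M (cs P c s)
    (P.fr s s) P.rv h1 (hsv P c s h) h2 h3 κ
  refine ⟨J, hJ1, ?_⟩
  intro z z' hz
  let Z : Fin 6 → Vs c s := fun l => ⟨z l, (hz.typ l).1⟩
  let Z' : Fin 6 → Vs c s := fun l => ⟨z' l, (hz.typ l).2⟩
  have hZ : ZA (cs P c s) (P.fr s s) κ Z Z' := by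
    refine ⟨fun l l' hl => ?_, fun l l' hl => ?_, fun l l' hl => ?_⟩
    · exact ⟨Subtype.ext (hz.eq l l' hl).1, Subtype.ext (hz.eq l l' hl).2⟩
    · exact hz.lt l l' hl
    · obtain ⟨f1, f2, f3, f4⟩ := hz.free l l' hl
      exact ⟨cD_of_inr f1, cD_of_inr f2, cD_of_inr f3, cD_of_inr f4⟩
  have h4 := hJ2 Z Z' hZ
  have h5 : hsv P c s h Z Z' = none ↔ ∃ s', h z z' = Sum.inl s' := by
    unfold hsv
    constructor
    · intro h6
      by_contra h7
      rw [if_neg h7] at h6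
      exact absurd h6 (by simp)
    · intro h6
      rw [if_pos h6]
  rw [← h5, h4]
  constructor
  · intro h6 l hl
    exact congrArg Subtype.val (h6 l hl)
  · intro h6 l hl
    exact Subtype.ext (h6 l hl)

end Pool.Agent.H48.SO.JEX
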