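import Pool.Agent.H44.SO.Basic

/-!
# Row TAM: tameness of canonical maps on generic pairs of blocks
-/

set_option autoImplicit false

namespace Pool.Agent.H48.SO.TAM

open Pool.Agent.H44.SO Pool.Agent.H57.SO Pool.Agent.H68.BP Pool.Agent.H58.SF Pool.Agent.H53.GC
open Pool.Agent.H53.NR Function
open Pool.Agent.H57.EQ (Cx Tour)
open Pool.Agent.H44.EQ (PolMap TInv BinPol ZA JSet sel kap)

section

variable {V S X : Type} [LinearOrder V] {P : Pal S X} {c : V → V → S ⊕ X} {σ : Sig}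
  {𝔸 : Str σ V} {M : ℕ} {I : Type}

theorem zon_same (hc : Col P c) {rk : I → ℕ} {a b a' b' : I → V} (h1 : Zon P c rk a b)
    (h2 : Zon P c rk b a) (h1' : Zon P c rk a' b') (h2' : Zon P c rk b' a')
    (ha : ∀ i, vt P c (a i) = vt P c (a' i)) (hb : ∀ i, vt P c (b i) = vt P c (b' i)) {i j : I}
    (hij : rk i ≠ rk j) : (a i < b j ↔ a' i < b' j) ∧ c (a i) (b j) = c (a' i) (b' j) := by
  rcases lt_or_gt_of_ne hij with h | h
  · have e1 := h1 i j h
    have e2 := h1' i j h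
    refine ⟨⟨fun _ => e2.1, fun _ => e1.1⟩, ?_⟩
    rw [e1.2, e2.2, ha, hb]
  · have e1 := h2 j i h
    have e2 := h2' j i h
    refine ⟨⟨fun h3 => absurd h3 (lt_asymm e1.1), fun h3 => absurd h3 (lt_asymm e2.1)⟩, ?_⟩
    apply Col.swap' hc
    rw [e1.2, e2.2, ha, hb]

theorem same_of (hc : Col P c) {rk : I → ℕ} (hrk : Injective rk) {x x' y y' : I → V}
    (hx : Gen P c rk x x') (hy : Gen P c rk y y') (h1 : ∀ i, vt P c (x i) = vt P c (y i))
    (h2 : ∀ i, vt P c (x' i) = vt P c (y' i))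
    (h3 : ∀ i, (x i < x' i ↔ y i < y' i) ∧ (x' i < x i ↔ y' i < y i) ∧
      c (x i) (x' i) = c (y i) (y' i)) : Same c (Sum.elim x x') (Sum.elim y y') := by
  obtain ⟨a1, a2, a3, a4⟩ := hx
  obtain ⟨b1, b2, b3, b4⟩ := hy
  rintro (i | i) (j | j)
  · by_cases hij : i = j
    · subst hij
      exact ⟨iff_of_false (lt_irrefl _) (lt_irrefl _), by
        show c (x i) (x i) = c (y i) (y i)
        rw [Col.vt hc, Col.vt hc (y i), h1]⟩
    · exact zon_same hc a1 a1 b1 b1 h1 h1 (hrk.ne hij)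
  · by_cases hij : i = j
    · subst hij
      exact ⟨(h3 i).1, (h3 i).2.2⟩
    · exact zon_same hc a2 a3 b2 b3 h1 h2 (hrk.ne hij)
  · by_cases hij : i = j
    · subst hij
      exact ⟨(h3 i).2.1, Col.swap' hc (h3 i).2.2⟩
    · exact zon_same hc a3 a2 b3 b2 h2 h1 (hrk.ne hij)
  · by_cases hij : i = j
    · subst hij
      exact ⟨iff_of_false (lt_irrefl _) (lt_irrefl _), by
        show c (x' i) (x' i) = c (y' i) (y' i)
        rw [Col.vt hc, Col.vt hc (y' i), h2]⟩
    · exact zon_same hc a4 a4 b4 b4 h2 h2 (hrk.ne hij)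

theorem tri (hc : Col P c) {H : (I → V) → (I → V) → S ⊕ X} (hH : Can 𝔸 c I H)
    (x : Fin 3 → I → V) (i j k : Fin 3) (h1 : ∃ s, H (x i) (x j) = Sum.inl s)
    (h2 : (∃ s, H (x j) (x k) = Sum.inl s)) : ∃ s, H (x i) (x k) = Sum.inl s := by
  obtain ⟨ψ, -, hψ⟩ := hH.comb (Fin 3) (fun l a => x a l)
  obtain ⟨s, hs⟩ := h1
  obtain ⟨t, ht⟩ := h2
  have e1 : ψ i = ψ j := Col.eq_of_inl hc ((hψ i j).trans hs)
  have e2 : ψ j = ψ k := Col.eq_of_inl hc ((hψ j k).trans ht)
  have e3 := hψ i k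
  rw [e1.trans e2, Col.vt hc] at e3
  exact ⟨_, e3.symm⟩

theorem symm' (hc : Col P c) {H : (I → V) → (I → V) → S ⊕ X} (hH : Can 𝔸 c I H)
    (a b : I → V) (h1 : ∃ s, H a b = Sum.inl s) : ∃ s, H b a = Sum.inl s := by
  obtain ⟨ψ, -, hψ⟩ := hH.comb (Fin 2) (fun l k => if k = 0 then a l else b l)
  obtain ⟨s, hs⟩ := h1
  have e1 : ψ 0 = ψ 1 := Col.eq_of_inl hc ((hψ 0 1).trans hs)
  have e3 : c (ψ 1) (ψ 0) = H b a := hψ 1 0
  rw [e1, Col.vt hc] at e3
  exact ⟨_, e3.symm⟩

omit [LinearOrder V] in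
theorem cD_swap (hc : Col P c) {x y : V} (h : x ≠ y) : cD P c y x = P.rv (cD P c x y) :=
  cD_of_inr (hc.swap x y _ (cD_of_ne hc h))

/-- the element for the name `(i, j)`, in the two systems -/
def El (z z' w w' : I → V) (k : Bool) (i : I) (j : Fin 3) : V :=
  if j = 0 then (if k then w i else z i) else if j = 1 then z' i else w' i

/-- positions inside a level -/
noncomputable def Lr (z z' w w' : I → V) (o : I → Prop) (i : I) (j : Fin 3) : ℕ := by
  classical
  exact if j = 0 then 10 else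
    if j = 1 then (if z i < z' i then (if o i then 11 else 12) else (if o i then 8 else 9))
    else (if w i < w' i then (if o i then 12 else 11) else (if o i then 9 else 8))

/-- colours inside a level -/
def Dd' (P : Pal S X) (c : V → V → S ⊕ X) (z z' w w' : I → V) (i : I) (j j' : Fin 3) : X :=
  if j ≠ 0 ∧ j' ≠ 0 then P.fr (vt P c (El z z' w w' false i j)) (vt P c (El z z' w w' false i j'))
  else cD P c (El z z' w w' (decide (j = 2 ∨ j' = 2)) i j)
    (El z z' w w' (decide (j = 2 ∨ j' = 2)) i j')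

theorem Lr_inj {z z' w w' : I → V} {o : I → Prop} {i : I} {j j' : Fin 3}
    (h : Lr z z' w w' o i j = Lr z z' w w' o i j') : j = j' := by
  classical
  unfold Lr at h
  fin_cases j <;> fin_cases j' <;> simp at h ⊢ <;> split_ifs at h <;> omega

theorem Lr_le {z z' w w' : I → V} {o : I → Prop} {i : I} {j : Fin 3} :
    Lr z z' w w' o i j ≤ 12 := by
  classical
  unfold Lr
  split_ifs <;> omega

theorem Lr01 {z z' w w' : I → V} {o : I → Prop} {i : I} :
    Lr z z' w w' o i 0 < Lr z z' w w' o i 1 ↔ z i < z' i := by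
  classical
  unfold Lr
  rw [if_pos rfl, if_neg (by decide), if_pos rfl]
  by_cases h : z i < z' i
  · rw [if_pos h]
    refine iff_of_true ?_ h
    split_ifs <;> omega
  · rw [if_neg h]
    refine iff_of_false ?_ h
    split_ifs <;> omega

theorem Lr10 {z z' w w' : I → V} {o : I → Prop} {i : I} :
    Lr z z' w w' o i 1 < Lr z z' w w' o i 0 ↔ ¬ z i < z' i := by
  rw [← Lr01 (z := z) (z' := z') (w := w) (w' := w') (o := o) (i := i), not_lt]
  constructor
  · exact fun h => h.le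
  · intro h
    exact lt_of_le_of_ne h fun h2 => absurd (Lr_inj h2) (by decide)

theorem Lr02 {z z' w w' : I → V} {o : I → Prop} {i : I} :
    Lr z z' w w' o i 0 < Lr z z' w w' o i 2 ↔ w i < w' i := by
  classical
  unfold Lr
  rw [if_pos rfl, if_neg (by decide), if_neg (by decide)]
  by_cases h : w i < w' i
  · rw [if_pos h]
    refine iff_of_true ?_ h
    split_ifs <;> omega
  · rw [if_neg h]
    refine iff_of_false ?_ h
    split_ifs <;> omega

theorem Lr20 {z z' w w' : I → V} {o : I → Prop} {i : I} :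
    Lr z z' w w' o i 2 < Lr z z' w w' o i 0 ↔ ¬ w i < w' i := by
  rw [← Lr02 (z := z) (z' := z') (w := w) (w' := w') (o := o) (i := i), not_lt]
  constructor
  · exact fun h => h.le
  · intro h
    exact lt_of_le_of_ne h fun h2 => absurd (Lr_inj h2) (by decide)

theorem Lr12 {z z' w w' : I → V} {o : I → Prop} {i : I} (h : z i < z' i ↔ w i < w' i) :
    Lr z z' w w' o i 1 < Lr z z' w w' o i 2 ↔ o i := by
  classical
  unfold Lr
  have q1 : (1 : Fin 3) ≠ 0 := by decide
  have q2 : (2 : Fin 3) ≠ 0 := by decide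
  have q3 : (2 : Fin 3) ≠ 1 := by decide
  rw [if_neg q1, if_pos rfl, if_neg q2, if_neg q3]
  by_cases h1 : z i < z' i
  · rw [if_pos h1, if_pos (h.1 h1)]
    by_cases ho : o i
    · rw [if_pos ho, if_pos ho]
      exact iff_of_true (by norm_num) ho
    · rw [if_neg ho, if_neg ho]
      exact iff_of_false (by norm_num) ho
  · rw [if_neg h1, if_neg (fun h2 => h1 (h.2 h2))]
    by_cases ho : o i
    · rw [if_pos ho, if_pos ho]
      exact iff_of_true (by norm_num) ho
    · rw [if_neg ho, if_neg ho]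
      exact iff_of_false (by norm_num) ho

omit [LinearOrder V] in
theorem El_ne {z z' w w' : I → V} {i : I} {j j' : Fin 3} (h : z i ≠ z' i) (h' : w i ≠ w' i)
    (hj : j ≠ j') (h0 : ¬ (j ≠ 0 ∧ j' ≠ 0)) :
    El z z' w w' (decide (j = 2 ∨ j' = 2)) i j ≠ El z z' w w' (decide (j = 2 ∨ j' = 2)) i j' := by
  unfold El
  fin_cases j <;> fin_cases j' <;> simp_all [eq_comm]

omit [LinearOrder V] in
theorem El_vt {z z' w w' : I → V} (ht : ∀ i, vt P c (w i) = vt P c (z i)) (k : Bool) (i : I)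
    (j : Fin 3) : vt P c (El z z' w w' k i j) = vt P c (El z z' w w' false i j) := by
  unfold El
  split_ifs <;> simp_all

theorem amal (hC : T_CFG) (hs : Stp P 𝔸 M c) [Finite I] {rk : I → ℕ} (hrk : Injective rk)
    {z z' w w' : I → V} (hz : Gen P c rk z z') (hw : Gen P c rk w w')
    (ht : ∀ i, vt P c (w i) = vt P c (z i)) (he : ∀ i, w i = w' i ↔ z i = z' i) (o : I → Prop) :
    ∃ Z Z' Z'' : I → V, Same c (Sum.elim Z Z') (Sum.elim z z') ∧
      Same c (Sum.elim Z Z'') (Sum.elim w w') ∧ Gen P c rk Z' Z'' ∧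
      (∀ i, vt P c (Z' i) = vt P c (z' i)) ∧ (∀ i, vt P c (Z'' i) = vt P c (w' i)) ∧
      (∀ i, Z' i = Z'' i ↔ z i = z' i) ∧
      (∀ i, z i ≠ z' i → c (Z' i) (Z'' i) = Sum.inr (P.fr (vt P c (z' i)) (vt P c (w' i)))) ∧
      ∀ i, z i ≠ z' i → (z i < z' i ↔ w i < w' i) → (Z' i < Z'' i ↔ o i) := by
  classical
  have hc := hs.col
  let W : Type := {p : I × Fin 3 // z p.1 = z' p.1 → p.2 = 0}
  let t : W → S := fun p => vt P c (El z z' w w' false p.1.1 p.1.2)
  let d : W → W → X := fun x y =>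
    if x.1.1 = y.1.1 then Dd' P c z z' w w' x.1.1 x.1.2 y.1.2 else P.fr (t x) (t y)
  let R : W → ℕ := fun p => 100 * rk p.1.1 + Lr z z' w w' o p.1.1 p.1.2
  have hlev : ∀ x y : W, x ≠ y → x.1.1 = y.1.1 → z x.1.1 ≠ z' x.1.1 ∧ x.1.2 ≠ y.1.2 := by
    intro x y hxy hl
    have h1 : x.1.2 ≠ y.1.2 := fun h => hxy (Subtype.ext (Prod.ext hl h))
    refine ⟨fun h => h1 ?_, h1⟩
    rw [x.2 h, y.2 (by rw [← hl]; exact h)]
  have hR : Injective R := by
    intro x y hxy
    have h1 : 100 * rk x.1.1 + Lr z z' w w' o x.1.1 x.1.2 =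
      100 * rk y.1.1 + Lr z z' w w' o y.1.1 y.1.2 := hxy
    have h2 := Lr_le (z := z) (z' := z') (w := w) (w' := w') (o := o) (i := x.1.1) (j := x.1.2)
    have h3 := Lr_le (z := z) (z' := z') (w := w) (w' := w') (o := o) (i := y.1.1) (j := y.1.2)
    have h4 : x.1.1 = y.1.1 := hrk (by omega)
    have h5 : Lr z z' w w' o x.1.1 x.1.2 = Lr z z' w w' o x.1.1 y.1.2 := by
      rw [h4] at h1 ⊢
      omega
    exact Subtype.ext (Prod.ext h4 (Lr_inj h5))
  have hsym : ∀ x y, x ≠ y → d y x = P.rv (d x y) := by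
    intro x y hxy
    show (if y.1.1 = x.1.1 then Dd' P c z z' w w' y.1.1 y.1.2 x.1.2 else P.fr (t y) (t x)) =
      P.rv (if x.1.1 = y.1.1 then Dd' P c z z' w w' x.1.1 x.1.2 y.1.2 else P.fr (t x) (t y))
    by_cases hl : x.1.1 = y.1.1
    · obtain ⟨h1, h2⟩ := hlev x y hxy hl
      rw [if_pos hl, if_pos hl.symm, ← hl]
      unfold Dd'
      by_cases h0 : x.1.2 ≠ 0 ∧ y.1.2 ≠ 0
      · rw [if_pos h0, if_pos ⟨h0.2, h0.1⟩, P.rv_fr]
      · rw [if_neg h0, if_neg (fun h => h0 ⟨h.2, h.1⟩)]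
        have e : decide (y.1.2 = 2 ∨ x.1.2 = 2) = decide (x.1.2 = 2 ∨ y.1.2 = 2) := by
          rw [decide_eq_decide]
          exact or_comm
        rw [e]
        exact cD_swap hc (El_ne h1 (fun h => h1 ((he _).1 h)) h2 h0)
    · rw [if_neg hl, if_neg (fun h => hl h.symm), P.rv_fr]
  have hfrl : ∀ x y : W, d x y ≠ P.fr (t x) (t y) → x.1.1 = y.1.1 ∧ ¬ (x.1.2 ≠ 0 ∧ y.1.2 ≠ 0) := by
    intro x y h
    have h' : (if x.1.1 = y.1.1 then Dd' P c z z' w w' x.1.1 x.1.2 y.1.2 else P.fr (t x) (t y)) ≠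
      P.fr (t x) (t y) := h
    by_cases hl : x.1.1 = y.1.1
    · refine ⟨hl, fun h0 => h' ?_⟩
      rw [if_pos hl, Dd', if_pos h0]
      show P.fr _ _ = P.fr (vt P c _) (vt P c _)
      rw [hl]
    · exact absurd (if_neg hl) h'
  obtain ⟨f, hf1, hf2, hf3⟩ := hC σ V S X P 𝔸 M c hs W ℕ R t d hR hsym (by
    intro K hK
    refine ⟨fun x => El z z' w w' (decide (∃ p ∈ K, p.1.2 = 2)) x.1.1 x.1.2, fun x _ => ?_,
      fun x hx y hy hxy => ?_⟩
    · rw [Col.vt hc, El_vt ht]
    · have h1 := hK x hx y hy hxy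
      obtain ⟨hl, h0⟩ := hfrl x y h1
      obtain ⟨hT, hj⟩ := hlev x y hxy hl
      have hkk : (∃ p ∈ K, p.1.2 = 2) ↔ (x.1.2 = 2 ∨ y.1.2 = 2) := by
        constructor
        · rintro ⟨p, hp, hp2⟩
          by_contra hcon
          push Not at hcon
          have h2 : ∃ q ∈ K, q.1.2 = 1 := by
            have h3 : x.1.2 = 1 ∨ y.1.2 = 1 := by
              have h4 := x.1.2.2
              have h5 := y.1.2.2
              simp only [Fin.ext_iff, ne_eq, Fin.val_zero, Fin.val_one, Fin.val_two] at *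
              omega
            rcases h3 with h3 | h3
            · exact ⟨x, hx, h3⟩
            · exact ⟨y, hy, h3⟩
          obtain ⟨q, hq, hq1⟩ := h2
          have hqp : q ≠ p := by
            rintro rfl
            rw [hp2] at hq1
            exact absurd hq1 (by decide)
          exact (hfrl q p (hK q hq p hp hqp)).2 ⟨by rw [hq1]; decide, by rw [hp2]; decide⟩
        · rintro (h | h)
          · exact ⟨x, hx, h⟩
          · exact ⟨y, hy, h⟩
      have e : decide (∃ p ∈ K, p.1.2 = 2) = decide (x.1.2 = 2 ∨ y.1.2 = 2) := by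
        rw [decide_eq_decide]
        exact hkk
      have e2 : d x y = Dd' P c z z' w w' x.1.1 x.1.2 y.1.2 := if_pos hl
      show c (El z z' w w' (decide (∃ p ∈ K, p.1.2 = 2)) x.1.1 x.1.2)
        (El z z' w w' (decide (∃ p ∈ K, p.1.2 = 2)) y.1.1 y.1.2) = _
      rw [e, e2, Dd', if_neg h0, ← hl]
      exact cD_of_ne hc (El_ne hT (fun h => hT ((he _).1 h)) hj h0))
  have hmem : ∀ (i : I) (j : Fin 3), z i = z' i → (if z i = z' i then (0 : Fin 3) else j) = 0 :=
    fun i j h => if_pos h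
  let m : Fin 3 → I → W := fun j i => ⟨(i, if z i = z' i then 0 else j), hmem i j⟩
  have hmT : ∀ j i, z i = z' i → m j i = m 0 i := by
    intro j i h
    apply Subtype.ext
    show (i, if z i = z' i then (0 : Fin 3) else j) = (i, if z i = z' i then (0 : Fin 3) else 0)
    rw [if_pos h, if_pos h]
  have hmN : ∀ j i, z i ≠ z' i → (m j i).1.2 = j := fun j i h => if_neg h
  have hvt : ∀ x, vt P c (f x) = t x := fun x => vt_of (hf2 x)
  have hzon : ∀ j j', Zon P c rk (fun i => f (m j i)) (fun i => f (m j' i)) := by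
    intro j j' i i' hii
    have h2 := Lr_le (z := z) (z' := z') (w := w) (w' := w') (o := o) (i := i) (j := (m j i).1.2)
    have h3 : R (m j i) < R (m j' i') := by
      show 100 * rk i + Lr z z' w w' o i (m j i).1.2 < 100 * rk i' + Lr z z' w w' o i' (m j' i').1.2
      omega
    have h4 : i ≠ i' := fun h => absurd hii (by rw [h]; exact lt_irrefl _)
    refine ⟨(hf1 _ _).2 h3, ?_⟩
    rw [hvt, hvt, hf3 _ _ (fun h => h4 (congrArg (fun x : W => x.1.1) h))]
    exact congrArg Sum.inr (if_neg h4)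
  have hgen : ∀ j j', Gen P c rk (fun i => f (m j i)) (fun i => f (m j' i)) := fun j j' =>
    ⟨hzon j j, hzon j j', hzon j' j, hzon j' j'⟩
  have hv0 : ∀ i, vt P c (f (m 0 i)) = vt P c (z i) := by
    intro i
    rw [hvt]
    show vt P c (El z z' w w' false i (if z i = z' i then 0 else 0)) = _
    rw [ite_self]
    rfl
  have hv1 : ∀ i, vt P c (f (m 1 i)) = vt P c (z' i) := by
    intro i
    by_cases hT : z i = z' i
    · rw [hmT 1 i hT, hv0, hT]
    · rw [hvt]
      show vt P c (El z z' w w' false i (m 1 i).1.2) = _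
      rw [hmN 1 i hT]
      rfl
  have hv2 : ∀ i, vt P c (f (m 2 i)) = vt P c (w' i) := by
    intro i
    by_cases hT : z i = z' i
    · rw [hmT 2 i hT, hv0, ← ht, (he i).2 hT]
    · rw [hvt]
      show vt P c (El z z' w w' false i (m 2 i).1.2) = _
      rw [hmN 2 i hT]
      rfl
  have hRlt : ∀ (i : I) (j j' : Fin 3), z i ≠ z' i →
      (f (m j i) < f (m j' i) ↔ Lr z z' w w' o i j < Lr z z' w w' o i j') := by
    intro i j j' hT
    rw [hf1]
    show 100 * rk i + Lr z z' w w' o i (m j i).1.2 < 100 * rk i + Lr z z' w w' o i (m j' i).1.2 ↔ _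
    rw [hmN j i hT, hmN j' i hT]
    omega
  have hmne : ∀ (i : I) (j j' : Fin 3), z i ≠ z' i → j ≠ j' → m j i ≠ m j' i := by
    intro i j j' hT hj h
    apply hj
    rw [← hmN j i hT, ← hmN j' i hT, h]
  have hcol : ∀ (i : I) (j j' : Fin 3), z i ≠ z' i → j ≠ j' →
      c (f (m j i)) (f (m j' i)) = Sum.inr (Dd' P c z z' w w' i j j') := by
    intro i j j' hT hj
    rw [hf3 _ _ (hmne i j j' hT hj)]
    show Sum.inr (if i = i then Dd' P c z z' w w' i (m j i).1.2 (m j' i).1.2 else _) = _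
    rw [if_pos rfl, hmN j i hT, hmN j' i hT]
  refine ⟨fun i => f (m 0 i), fun i => f (m 1 i), fun i => f (m 2 i), ?_, ?_, hgen 1 2, hv1, hv2,
    ?_, ?_, ?_⟩
  · refine same_of hc hrk (hgen 0 1) hz hv0 hv1 fun i => ?_
    by_cases hT : z i = z' i
    · show (f (m 0 i) < f (m 1 i) ↔ _) ∧ (f (m 1 i) < f (m 0 i) ↔ _) ∧ c (f (m 0 i)) (f (m 1 i)) = _
      rw [hmT 1 i hT, ← hT]
      refine ⟨iff_of_false (lt_irrefl _) (lt_irrefl _), iff_of_false (lt_irrefl _) (lt_irrefl _), ?_⟩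
      rw [Col.vt hc, Col.vt hc (z i), hv0]
    · refine ⟨(hRlt i 0 1 hT).trans Lr01, (hRlt i 1 0 hT).trans (Lr10.trans ?_), ?_⟩
      · constructor
        · exact fun h => lt_of_le_of_ne (not_lt.1 h) fun h2 => hT h2.symm
        · exact fun h => lt_asymm h
      · exact (hcol i 0 1 hT (by decide)).trans (cD_of_ne hc hT).symm
  · refine same_of hc hrk (hgen 0 2) hw (fun i => (hv0 i).trans (ht i).symm) hv2 fun i => ?_
    by_cases hT : z i = z' i
    · show (f (m 0 i) < f (m 2 i) ↔ _) ∧ (f (m 2 i) < f (m 0 i) ↔ _) ∧ c (f (m 0 i)) (f (m 2 i)) = _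
      rw [hmT 2 i hT, ← (he i).2 hT]
      refine ⟨iff_of_false (lt_irrefl _) (lt_irrefl _), iff_of_false (lt_irrefl _) (lt_irrefl _), ?_⟩
      rw [Col.vt hc, Col.vt hc (w i), hv0, ht]
    · have hT' : w i ≠ w' i := fun h => hT ((he i).1 h)
      refine ⟨(hRlt i 0 2 hT).trans Lr02, (hRlt i 2 0 hT).trans (Lr20.trans ?_), ?_⟩
      · constructor
        · exact fun h => lt_of_le_of_ne (not_lt.1 h) fun h2 => hT' h2.symm
        · exact fun h => lt_asymm h
      · exact (hcol i 0 2 hT (by decide)).trans (cD_of_ne hc hT').symm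
  · intro i
    by_cases hT : z i = z' i
    · refine iff_of_true ?_ hT
      show f (m 1 i) = f (m 2 i)
      rw [hmT 1 i hT, hmT 2 i hT]
    · refine iff_of_false ?_ hT
      exact Col.ne_of_inr hc (hcol i 1 2 hT (by decide))
  · intro i hT
    exact hcol i 1 2 hT (by decide)
  · intro i hT h
    exact (hRlt i 1 2 hT).trans (Lr12 h)

end

theorem pf_TAM (hC : T_CFG) : T_TAM := by
  intro σ V S X _ P 𝔸 M c hs I _ rk hrk H hH z z' w w' hz hw ht ht' he hHz
  have hc := hs.col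
  have step : ∀ y y'' : I → V, Gen P c rk y y'' → (∀ i, vt P c (y i) = vt P c (z' i)) →
      (∀ i, vt P c (y'' i) = vt P c (z' i)) → (∀ i, y i = y'' i ↔ z i = z' i) →
      (∀ i, z i ≠ z' i → c (y i) (y'' i) = Sum.inr (P.fr (vt P c (z' i)) (vt P c (z' i)))) →
      ∃ s, H y y'' = Sum.inl s := by
    intro y y'' hy h1 h2 h3 h4
    obtain ⟨Z, Z', Z'', a1, a2, a3, a4, a5, a6, a7, a8⟩ := amal hC hs hrk hz hz (fun _ => rfl)
      (fun _ => Iff.rfl) (fun i => y i < y'' i)
    have e1 : ∃ s, H Z Z' = Sum.inl s := by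
      rw [hH.tinv _ _ _ _ a1]
      exact hHz
    have e2 : ∃ s, H Z Z'' = Sum.inl s := by
      rw [hH.tinv _ _ _ _ a2]
      exact hHz
    have e3 : ∃ s, H Z' Z'' = Sum.inl s :=
      tri hc hH ![Z', Z, Z''] 0 1 2 (symm' hc hH Z Z' e1) e2
    have e4 : Same c (Sum.elim Z' Z'') (Sum.elim y y'') := by
      refine same_of hc hrk a3 hy (fun i => (a4 i).trans (h1 i).symm)
        (fun i => (a5 i).trans (h2 i).symm) fun i => ?_
      by_cases hT : z i = z' i
      · have f1 := (a6 i).2 hT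
        have f2 := (h3 i).2 hT
        rw [← f1, ← f2]
        refine ⟨iff_of_false (lt_irrefl _) (lt_irrefl _), iff_of_false (lt_irrefl _) (lt_irrefl _),
          ?_⟩
        rw [Col.vt hc, Col.vt hc (y i), a4, h1]
      · have f1 : Z' i ≠ Z'' i := fun h => hT ((a6 i).1 h)
        have f2 : y i ≠ y'' i := fun h => hT ((h3 i).1 h)
        have f3 := a8 i hT Iff.rfl
        refine ⟨f3, ?_, ?_⟩
        · constructor
          · intro h
            exact lt_of_le_of_ne (not_lt.1 fun h5 => lt_asymm h (f3.2 h5)) f2.symm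
          · intro h
            exact lt_of_le_of_ne (not_lt.1 fun h5 => lt_asymm h (f3.1 h5)) f1.symm
        · rw [a7 i hT, h4 i hT]
    rw [← hH.tinv _ _ _ _ e4]
    exact e3
  obtain ⟨Z, Z', Z'', a1, a2, a3, a4, a5, a6, a7, a8⟩ := amal hC hs hrk hz hw ht he
    (fun _ => True)
  have e1 : ∃ s, H Z Z' = Sum.inl s := by
    rw [hH.tinv _ _ _ _ a1]
    exact hHz
  have e2 : ∃ s, H Z' Z'' = Sum.inl s := by
    refine step Z' Z'' a3 a4 (fun i => (a5 i).trans (ht' i)) a6 fun i hT => ?_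
    rw [a7 i hT, ht' i]
  have e3 : ∃ s, H Z Z'' = Sum.inl s := tri hc hH ![Z, Z', Z''] 0 1 2 e1 e2
  rw [← hH.tinv _ _ _ _ a2]
  exact e3

end Pool.Agent.H48.SO.TAM
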